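import Mathlib

namespace Pool.Agent.Results.MP_f6aace_co.Exists

/-- `H` is an `m`-fold cover of `G`, with `L (u) = {u} × Fin m`. -/
def IsCover {V : Type} (G : SimpleGraph V) (m : ℕ) (H : SimpleGraph (V × Fin m)) : Prop :=
  (∀ u i j, i ≠ j → H.Adj (u, i) (u, j)) ∧
  (∀ u v, G.Adj u v → ∀ i j j', H.Adj (u, i) (v, j) → H.Adj (u, i) (v, j') → j = j') ∧
  (∀ u v, u ≠ v → ¬ G.Adj u v → ∀ i j, ¬ H.Adj (u, i) (v, j))

/-- The DP-chromatic number. -/
noncomputable def chiDP {V : Type} [Fintype V] (G : SimpleGraph V) : ℕ :=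
  sInf {m | ∀ H, IsCover G m H → ∃ s, H.IsNIndepSet (Fintype.card V) s}

/-- `α_t^{DP} (G)`: the least independence number of a `t`-fold cover. -/
noncomputable def alphaDP {V : Type} [Fintype V] (G : SimpleGraph V) (t : ℕ) : ℕ :=
  sInf {a | ∃ H, IsCover G t H ∧ H.indepNum = a}

theorem greedy {n d : ℕ} (G : SimpleGraph (Fin n)) [DecidableRel G.Adj]
    (hd : ∀ v, (Finset.univ.filter fun u => u < v ∧ G.Adj u v).card ≤ d)
    (H : SimpleGraph (Fin n × Fin (d + 1))) (hH : IsCover G (d + 1) H) :
    ∃ s, H.IsNIndepSet (Fintype.card (Fin n)) s := by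
  classical
  have key : ∀ k ≤ n, ∃ c : Fin n → Fin (d + 1), ∀ u v : Fin n, u.val < k → v.val < k → u ≠ v →
      ¬ H.Adj (u, c u) (v, c v) := by
    intro k
    induction k with
    | zero => intro _; exact ⟨fun _ => 0, fun u v h => absurd h (Nat.not_lt_zero _)⟩
    | succ k ih =>
      intro hk
      obtain ⟨c, hc⟩ := ih (by omega)
      let w : Fin n := ⟨k, hk⟩
      have : ∃ j, ∀ u, u < w → ¬ H.Adj (u, c u) (w, j) := by
        by_contra hcon
        push Not at hcon
        choose f hf1 hf2 using hcon
        have hadj : ∀ j, G.Adj (f j) w := fun j => by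
          by_contra h
          exact hH.2.2 _ _ (hf1 j).ne h _ _ (hf2 j)
        have := Finset.card_le_card_of_injOn (s := Finset.univ)
          (t := Finset.univ.filter fun u => u < w ∧ G.Adj u w) f
          (fun j _ => by simp [hf1 j, hadj j])
          (fun j _ j' _ e => hH.2.1 _ _ (hadj j) _ _ _ (hf2 j) (e ▸ hf2 j'))
        have h2 := hd w
        simp at this
        omega
      obtain ⟨j, hj⟩ := this
      refine ⟨Function.update c w j, fun u v hu hv huv => ?_⟩
      by_cases h1 : u = w
      · subst h1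
        have : v < w := by
          have : v.val ≠ k := fun e => huv (Fin.ext e.symm)
          show v.val < k
          omega
        rw [Function.update_self, Function.update_of_ne huv.symm]
        exact fun h => hj v this h.symm
      · have hu' : u.val < k := by
          have : u.val ≠ k := fun e => h1 (Fin.ext e)
          omega
        rw [Function.update_of_ne h1]
        by_cases h2 : v = w
        · subst h2
          rw [Function.update_self]
          exact hj u hu'
        · have hv' : v.val < k := by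
            have : v.val ≠ k := fun e => h2 (Fin.ext e)
            omega
          rw [Function.update_of_ne h2]
          exact hc u v hu' hv' huv
  obtain ⟨c, hc⟩ := key n le_rfl
  refine ⟨Finset.univ.image fun u => (u, c u), ?_, ?_⟩
  · intro x hx y hy hxy
    simp only [Finset.coe_image, Finset.coe_univ, Set.image_univ, Set.mem_range] at hx hy
    obtain ⟨u, rfl⟩ := hx
    obtain ⟨v, rfl⟩ := hy
    exact hc u v u.2 v.2 fun e => hxy (by rw [e])
  · rw [Finset.card_image_of_injective _ fun u v e => congrArg Prod.fst e]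
    simp

/-- The cover that encodes ordinary colouring. -/
def canon {V : Type} (G : SimpleGraph V) (m : ℕ) : SimpleGraph (V × Fin m) where
  Adj x y := (x.1 = y.1 ∧ x.2 ≠ y.2) ∨ (G.Adj x.1 y.1 ∧ x.2 = y.2)
  symm := ⟨fun _ _ h => h.imp (fun h => ⟨h.1.symm, h.2.symm⟩) fun h => ⟨h.1.symm, h.2.symm⟩⟩
  loopless := ⟨fun _ h => h.elim (fun h => h.2 rfl) fun h => h.1.ne rfl⟩

theorem canon_cover {V : Type} (G : SimpleGraph V) (m : ℕ) : IsCover G m (canon G m) := by
  refine ⟨fun u i j h => Or.inl ⟨rfl, h⟩, fun u v huv i j j' h h' => ?_, fun u v h1 h2 i j h => ?_⟩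
  · rcases h with h | h
    · exact absurd h.1 huv.ne
    rcases h' with h' | h'
    · exact absurd h'.1 huv.ne
    exact h.2.symm.trans h'.2
  · exact h.elim (fun h => h1 h.1) fun h => h2 h.1

theorem colouring {V : Type} [Fintype V] (G : SimpleGraph V) (m : ℕ) (s : Finset (V × Fin m))
    (hs : (canon G m).IsNIndepSet (Fintype.card V) s) :
    ∃ c : V → Fin m, ∀ u v, G.Adj u v → c u ≠ c v := by
  classical
  have hinj : Set.InjOn Prod.fst (s : Set (V × Fin m)) := by
    intro x hx y hy e
    by_contra hne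
    exact hs.1 hx hy hne (Or.inl ⟨e, fun e' => hne (Prod.ext e e')⟩)
  have : s.image Prod.fst = Finset.univ :=
    Finset.eq_univ_of_card _ (by rw [Finset.card_image_of_injOn hinj, hs.2])
  have h2 : ∀ u, ∃ i, (u, i) ∈ s := by
    intro u
    obtain ⟨x, hx, rfl⟩ := Finset.mem_image.1 (this ▸ Finset.mem_univ u)
    exact ⟨x.2, hx⟩
  choose c hc using h2
  exact ⟨c, fun u v huv e => hs.1 (hc u) (hc v) (fun e' => huv.ne (congrArg Prod.fst e'))
    (Or.inr ⟨huv, e⟩)⟩

/-- Branch-and-bound check that every independent subset of `L` has fewer than `k` elements. -/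
def chk {W : Type} (adj : W → W → Bool) : ℕ → List W → ℕ → Bool
  | 0, L, k => L.length < k
  | _ + 1, [], k => 0 < k
  | f + 1, v :: L, k => L.length + 1 < k ||
      (chk adj f L k && 0 < k && chk adj f (L.filter fun w => !adj v w) (k - 1))

theorem chk_sound {W : Type} [DecidableEq W] (adj : W → W → Bool) (f : ℕ) :
    ∀ (L : List W) (k : ℕ), chk adj f L k = true → ∀ s : Finset W, (∀ x ∈ s, x ∈ L) →
      (∀ x ∈ s, ∀ y ∈ s, x ≠ y → adj x y = false) → s.card < k := by
  have base : ∀ (L : List W) (s : Finset W), (∀ x ∈ s, x ∈ L) → s.card ≤ L.length :=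
    fun L s h => (Finset.card_le_card fun x hx => List.mem_toFinset.2 (h x hx)).trans
      (List.toFinset_card_le L)
  induction f with
  | zero =>
    intro L k h s hs _
    simp only [chk, decide_eq_true_eq] at h
    exact (base L s hs).trans_lt h
  | succ f ih =>
    intro L k h s hs hi
    cases L with
    | nil =>
      simp only [chk, decide_eq_true_eq] at h
      exact (base [] s hs).trans_lt h
    | cons v L =>
      simp only [chk, Bool.or_eq_true, Bool.and_eq_true, decide_eq_true_eq] at h
      rcases h with h | ⟨⟨h1, h2⟩, h3⟩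
      · exact (base _ s hs).trans_lt h
      by_cases hv : v ∈ s
      · have := ih _ _ h3 (s.erase v) (fun x hx => by
          obtain ⟨hx1, hx2⟩ := Finset.mem_erase.1 hx
          refine List.mem_filter.2 ⟨(List.mem_cons.1 (hs x hx2)).resolve_left hx1, ?_⟩
          simp [hi v hv x hx2 hx1.symm])
          (fun x hx y hy => hi x (Finset.mem_of_mem_erase hx) y (Finset.mem_of_mem_erase hy))
        rw [Finset.card_erase_of_mem hv] at this
        omega
      · exact ih _ _ h1 s (fun x hx => (List.mem_cons.1 (hs x hx)).resolve_left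
          fun e => hv (e ▸ hx)) hi

def gm : ℕ := 333289463537976477445649463299321928661438321632734
def sm : ℕ := 52624050899890948096557248339041330863928833934488

def gA (u v : Fin 13) : Bool := gm.testBit (13 * u.val + v.val)

def hA (x y : Fin 13 × Fin 2) : Bool :=
  (x.1 == y.1 && x.2 != y.2) ||
    (gA x.1 y.1 && ((x.2 != y.2) == sm.testBit (13 * x.1.val + y.1.val)))

def G0 : SimpleGraph (Fin 13) where
  Adj u v := gA u v = true
  symm := ⟨by decide +kernel⟩
  loopless := ⟨by decide +kernel⟩

instance : DecidableRel G0.Adj := fun u v => inferInstanceAs (Decidable (gA u v = true))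

def H0 : SimpleGraph (Fin 13 × Fin 2) where
  Adj x y := hA x y = true
  symm := ⟨by decide +kernel⟩
  loopless := ⟨by decide +kernel⟩

instance : DecidableRel H0.Adj := fun u v => inferInstanceAs (Decidable (hA u v = true))

def LL : List (Fin 13 × Fin 2) := (List.finRange 13).flatMap fun u => [(u, 0), (u, 1)]

/-- A graph with `χ_DP > 3` and `α_2^DP < 2 |V| / χ_DP`. -/
theorem result : ∃ (n : ℕ) (G : SimpleGraph (Fin n)), 0 < n ∧ 3 < chiDP G ∧
    (alphaDP G 2 : ℚ) < 2 * n / chiDP G := by
  have h5 : 5 ∈ {m | ∀ H, IsCover G0 m H → ∃ s, H.IsNIndepSet (Fintype.card (Fin 13)) s} :=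
    fun H hH => greedy (d := 4) G0 (by decide +kernel) H hH
  have hle : chiDP G0 ≤ 5 := Nat.sInf_le h5
  have hlt : 3 < chiDP G0 := by
    obtain ⟨s, hs⟩ := Nat.sInf_mem ⟨5, h5⟩ _ (canon_cover G0 _)
    obtain ⟨c, hc⟩ := colouring G0 _ s hs
    have hK : ∀ i j : Fin 4, i ≠ j → G0.Adj (Fin.castLE (by norm_num) i)
      (Fin.castLE (by norm_num) j) := by decide +kernel
    have := Fintype.card_le_of_injective (fun i : Fin 4 => c (Fin.castLE (by norm_num) i))
      fun i j e => by
        by_contra hne
        exact hc _ _ (hK i j hne) e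
    simp only [Fintype.card_fin] at this
    exact this
  have hα : alphaDP G0 2 ≤ 5 := by
    have hc : IsCover G0 2 H0 := by
      unfold IsCover
      decide +kernel
    have hm : H0.indepNum ∈ {a | ∃ H, IsCover G0 2 H ∧ H.indepNum = a} := ⟨H0, hc, rfl⟩
    refine (Nat.sInf_le hm).trans ?_
    · obtain ⟨s, hs⟩ := H0.exists_isNIndepSet_indepNum
      rw [← hs.2]
      refine Nat.lt_succ_iff.1 (chk_sound hA 30 LL 6 (by decide +kernel) s (fun x _ => ?_) ?_)
      · exact (by decide +kernel : ∀ x, x ∈ LL) x
      · intro x hx y hy hxy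
        simpa using (show ¬ hA x y = true from hs.1 hx hy hxy)
  refine ⟨13, G0, by norm_num, hlt, ?_⟩
  have h1 : (0 : ℚ) < chiDP G0 := by exact_mod_cast (by omega : 0 < chiDP G0)
  have h2 : (chiDP G0 : ℚ) ≤ 5 := by exact_mod_cast hle
  have h3 : (alphaDP G0 2 : ℚ) ≤ 5 := by exact_mod_cast hα
  rw [lt_div_iff₀ h1]
  push_cast
  nlinarith

end Pool.Agent.Results.MP_f6aace_co.Exists
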